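import Pool.Agent.Helper82.ZS.Fr

/-!
# Fusion in the Sylow `2`-subgroup of a group without elements of order three
-/

set_option autoImplicit false

namespace Pool.Agent.Helper78.ZS

open Pool.Agent.Helper82.EB Pool.Agent.Helper82.ZS

section conj

variable {Q : Type*} [Group Q]

/-- conjugation -/
def cj (w Y : Q) : Q := w * Y * w⁻¹

lemma cj_mul_left (a b Y : Q) : cj (a * b) Y = cj a (cj b Y) := by
  unfold cj; group

lemma cj_mul (w Y Z : Q) : cj w (Y * Z) = cj w Y * cj w Z := by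
  unfold cj; group

lemma cj_inv (w Y : Q) : cj w Y⁻¹ = (cj w Y)⁻¹ := by
  unfold cj; group

lemma cj_one (w : Q) : cj w 1 = 1 := by
  unfold cj; group

lemma cj_one_left (Y : Q) : cj 1 Y = Y := by
  unfold cj; group

lemma cj_inv_left (w Y : Q) : cj w⁻¹ (cj w Y) = Y := by
  unfold cj; group

lemma cj_inv_right (w Y : Q) : cj w (cj w⁻¹ Y) = Y := by
  unfold cj; group

lemma cj_self (w : Q) : cj w w = w := by
  unfold cj; group

lemma cj_inj (w : Q) {Y Z : Q} (h : cj w Y = cj w Z) : Y = Z := by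
  rw [← cj_inv_left w Y, h, cj_inv_left]

lemma cj_eq_self {w Y : Q} (h : w * Y = Y * w) : cj w Y = Y := by
  unfold cj; rw [h]; group

lemma comm_of_cj {w Y : Q} (h : cj w Y = Y) : w * Y = Y * w := by
  unfold cj at h
  calc w * Y = (w * Y * w⁻¹) * w := by group
    _ = Y * w := by rw [h]

lemma cj_pow {w Y : Q} (h : cj w Y = Y) (n : ℕ) : cj (w ^ n) Y = Y := by
  induction n with
  | zero => rw [pow_zero, cj_one_left]
  | succ n ih => rw [pow_succ, cj_mul_left, h, ih]

lemma map_cj {G : Type*} [Group G] (π : G →* Q) (a b : G) : π (cj a b) = cj (π a) (π b) := by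
  unfold cj; rw [map_mul, map_mul, map_inv]

/-- no element permutes three different elements of a quotient cyclically -/
lemma no_cycle {G : Type*} [Group G] [Finite G] (π : G →* Q)
    (h3 : ∀ x : G, x ^ 3 = 1 → x = 1) (w : G) {Y S D : Q} (h1 : cj (π w) Y = S)
    (h2 : cj (π w) S = D) (h4 : cj (π w) D = Y) : S = Y := by
  have hcop : Nat.Coprime 3 (orderOf w) := by
    rw [Nat.Prime.coprime_iff_not_dvd Nat.prime_three]
    intro hdvd
    have h5 : orderOf (w ^ (orderOf w / 3)) = 3 :=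
      orderOf_pow_orderOf_div (orderOf_pos w).ne' hdvd
    have h6 : w ^ (orderOf w / 3) = 1 := by
      apply h3
      have h7 := pow_orderOf_eq_one (w ^ (orderOf w / 3))
      rwa [h5] at h7
    rw [h6, orderOf_one] at h5
    omega
  obtain ⟨k, hk⟩ := exists_pow_eq_self_of_coprime hcop
  have h5 : cj ((π w) ^ 3) Y = Y := by
    rw [pow_succ, pow_two, cj_mul_left, cj_mul_left, h1, h2, h4]
  have h6 := cj_pow h5 k
  rw [← map_pow, ← map_pow, hk, h1] at h6
  exact h6

end conj

/-- elements of `2`-power order of an overgroup of a Sylow subgroup -/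
lemma exists_conj_mem {G : Type*} [Group G] [Finite G] (P : Sylow 2 G) (N : Subgroup G)
    (hPN : (P : Subgroup G) ≤ N) (t : G) (ht : t ∈ N) (k : ℕ) (hk : t ^ 2 ^ k = 1) :
    ∃ n ∈ N, n * t * n⁻¹ ∈ (P : Subgroup G) := by
  have : Fact (Nat.Prime 2) := ⟨Nat.prime_two⟩
  have hp : IsPGroup 2 (Subgroup.zpowers (⟨t, ht⟩ : N)) := by
    rintro ⟨g, n, hn⟩
    refine ⟨k, Subtype.ext (Subtype.ext ?_)⟩
    have h1 : (g : G) = t ^ n := by
      rw [← hn]
      rfl
    change ((g : G)) ^ 2 ^ k = 1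
    rw [h1, ← zpow_natCast, ← zpow_mul, mul_comm, zpow_mul, zpow_natCast, hk, one_zpow]
  obtain ⟨R, hR⟩ := hp.exists_le_sylow
  obtain ⟨n, hn⟩ := MulAction.exists_smul_eq N R (P.subtype hPN)
  refine ⟨n, n.2, ?_⟩
  have h1 : (⟨t, ht⟩ : N) ∈ (R : Subgroup N) := hR (Subgroup.mem_zpowers _)
  have h2 : n * (⟨t, ht⟩ : N) * n⁻¹ ∈ ((n • R : Sylow 2 N) : Subgroup N) := by
    rw [Sylow.smul_def, Sylow.pointwise_smul_def]
    exact Subgroup.smul_mem_pointwise_smul _ (MulAut.conj n) _ h1
  rw [hn, Sylow.coe_subtype, Subgroup.mem_subgroupOf] at h2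
  exact h2

/-- elements of `2`-power order which normalize a Sylow subgroup -/
lemma mem_of_normalizes {G : Type*} [Group G] [Finite G] (P : Sylow 2 G) (f : G)
    (hf : ∀ p : G, p ∈ (P : Subgroup G) ↔ cj f p ∈ (P : Subgroup G)) (m k : ℕ)
    (hk : (f ^ m) ^ 2 ^ k = 1) : f ^ m ∈ (P : Subgroup G) := by
  have : Fact (Nat.Prime 2) := ⟨Nat.prime_two⟩
  have hn : f ∈ Subgroup.normalizer ((P : Subgroup G) : Set G) := by
    rw [Subgroup.mem_normalizer_iff]
    exact hf
  have hp : IsPGroup 2 (Subgroup.zpowers (f ^ m)) := by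
    rintro ⟨g, n, hn⟩
    refine ⟨k, Subtype.ext ?_⟩
    change g ^ 2 ^ k = 1
    simp only at hn
    rw [← hn, ← zpow_natCast, ← zpow_mul, mul_comm, zpow_mul, zpow_natCast, hk, one_zpow]
  have h1 := hp.inf_normalizer_sylow P
  have h2 : f ^ m ∈ Subgroup.zpowers (f ^ m) ⊓ (P : Subgroup G) := by
    rw [← h1]
    exact ⟨Subgroup.mem_zpowers _, pow_mem hn m⟩
  exact h2.2

/-- an element of a cyclic `2`-group is a square or a generator -/
lemma sq_or_gen {G : Type*} [Group G] [Finite G] (C : Subgroup G) (hC : IsCyclic C)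
    (h2 : IsPGroup 2 C) (y : G) (hy : y ∈ C) :
    (∃ r ∈ C, r ^ 2 = y) ∨ ∀ c ∈ C, ∃ n : ℕ, c = y ^ n := by
  obtain ⟨⟨g, hgC⟩, hg⟩ := hC.exists_generator
  have hpow : ∀ c ∈ C, ∃ n : ℕ, c = g ^ n := by
    intro c hc
    have h3 := hg ⟨c, hc⟩
    rw [← mem_powers_iff_mem_zpowers] at h3
    obtain ⟨n, hn⟩ := h3
    exact ⟨n, (by simpa using (congrArg Subtype.val hn).symm)⟩
  obtain ⟨k, hk⟩ := hpow y hy
  rcases Nat.even_or_odd' k with ⟨j, hj | hj⟩
  · left
    refine ⟨g ^ j, pow_mem hgC j, ?_⟩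
    rw [← pow_mul, mul_comm, ← hj, hk]
  · right
    obtain ⟨a, ha⟩ := h2 ⟨g, hgC⟩
    have ha' : g ^ 2 ^ a = 1 := by simpa using congrArg Subtype.val ha
    have hcop : Nat.Coprime k (orderOf g) := by
      have h4 : Nat.Coprime k (2 ^ a) := by
        apply Nat.Coprime.pow_right
        rw [hj]
        exact Nat.coprime_two_right.mpr ⟨j, rfl⟩
      exact Nat.Coprime.coprime_dvd_right (orderOf_dvd_of_pow_eq_one ha') h4
    obtain ⟨b, hb⟩ := exists_pow_eq_self_of_coprime hcop
    intro c hc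
    obtain ⟨n, hn⟩ := hpow c hc
    refine ⟨b * n, ?_⟩
    rw [hn, pow_mul, hk, hb]

theorem s_A4 : S_A4 := by
  intro G _ _ hAC hU h3 P y C hCP hyC hy2 hy4 hC hidx hinv
  by_contra hcon
  push Not at hcon
  obtain ⟨z, hz⟩ : ∃ z, z = y ^ 2 := ⟨_, rfl⟩
  have hz2 : z ^ 2 = 1 := by rw [hz, ← pow_mul]; exact hy4
  have hzz : z * z = 1 := by rw [← pow_two]; exact hz2
  have hz1 : z ≠ 1 := by rw [hz]; exact hy2
  have hcz : ∀ g : G, g * z = z * g := fun g => hU.central hz2 hz1 g
  have hzC : z ∈ C := by rw [hz]; exact pow_mem hyC 2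
  have hyy : y * y = z := by rw [hz, pow_two]
  have hcomm : ∀ a ∈ C, ∀ b ∈ C, a * b = b * a := by
    intro a ha b hb
    obtain ⟨⟨g, hgM⟩, hg⟩ := hC.exists_generator
    obtain ⟨k, hk⟩ := hg ⟨a, ha⟩
    obtain ⟨l, hl⟩ := hg ⟨b, hb⟩
    have hk' : g ^ k = a := by simpa using congrArg Subtype.val hk
    have hl' : g ^ l = b := by simpa using congrArg Subtype.val hl
    rw [← hk', ← hl', ← _root_.zpow_add, ← _root_.zpow_add, add_comm]
  -- the quotient by the involution
  obtain ⟨Q, hQ, π, hπ⟩ : ∃ (Q : Type) (_ : Group Q) (π : G →* Q),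
      ∀ g, π g = 1 ↔ g = 1 ∨ g = z := by
    have hn : (Subgroup.zpowers z).Normal := by
      refine ⟨fun a ha g => ?_⟩
      obtain ⟨n, hn⟩ := ha
      have h1 : g * a * g⁻¹ = a := by
        have h2 : Commute g a := by
          rw [← hn]
          exact (show Commute g z from hcz g).zpow_right n
        rw [h2.eq]
        group
      rw [h1]
      exact ⟨n, hn⟩
    refine ⟨G ⧸ Subgroup.zpowers z, inferInstance, QuotientGroup.mk' _, fun g => ?_⟩
    rw [QuotientGroup.mk'_apply, QuotientGroup.eq_one_iff]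
    constructor
    · rintro ⟨n, hn⟩
      simp only at hn
      rcases Int.even_or_odd' n with ⟨k, hk | hk⟩
      · left
        rw [← hn, hk, zpow_mul, zpow_ofNat, hz2, one_zpow]
      · right
        rw [← hn, hk, _root_.zpow_add, zpow_mul, zpow_ofNat, hz2, one_zpow, one_mul, zpow_one]
    · rintro (rfl | rfl)
      · exact one_mem _
      · exact Subgroup.mem_zpowers _
  have hπz : π z = 1 := (hπ z).mpr (Or.inr rfl)
  have hπeq : ∀ a b : G, π a = π b → a = b ∨ a = z * b := by
    intro a b hab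
    have h1 : π (a * b⁻¹) = 1 := by rw [map_mul, map_inv, hab, mul_inv_cancel]
    rcases (hπ _).mp h1 with h2 | h2
    · exact Or.inl (mul_inv_eq_one.mp h2)
    · exact Or.inr (mul_inv_eq_iff_eq_mul.mp h2)
  have hYY : π y * π y = 1 := by rw [← map_mul, hyy, hπz]
  -- elements of `C` with square `z`
  have hCz : ∀ c ∈ C, c ^ 2 = z → π c = π y := by
    intro c hc hc2
    have h1 : (c * y) ^ 2 = 1 := by
      have h2 : Commute c y := hcomm c hc y hyC
      rw [h2.mul_pow, hc2, ← hz, hzz]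
    rcases eq_of_mul_sq hU hz2 hz1 hyy h1 with h2 | h2
    · rw [h2, map_mul, hπz, one_mul]
    · rw [h2]
  have hC_of : ∀ g : G, π g = π y → g ∈ C := by
    intro g hg
    rcases hπeq g y hg with h1 | h1
    · rw [h1]; exact hyC
    · rw [h1]; exact mul_mem hzC hyC
  -- elements of `P`
  have hPY : ∀ p ∈ (P : Subgroup G), cj (π p) (π y) = π y := by
    intro p hp
    by_cases hpC : p ∈ C
    · rw [← map_cj]
      have h1 : cj p y = y := cj_eq_self (hcomm p hpC y hyC)
      rw [h1]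
    · have h1 : cj p y = y⁻¹ := (hinv p hp hpC).2 y hyC
      rw [← map_cj, h1, map_inv]
      exact inv_eq_of_mul_eq_one_left hYY
  obtain ⟨s, hsP, hsC⟩ : ∃ s, s ∈ (P : Subgroup G) ∧ s ∉ C := by
    by_contra hno
    push Not at hno
    have h1 : C.relIndex (P : Subgroup G) = 1 := Subgroup.relIndex_eq_one.mpr hno
    omega
  have hssz : s ^ 2 = z := by rw [hz]; exact (hinv s hsP hsC).1
  have hSS : π s * π s = 1 := by rw [← map_mul, ← pow_two, hssz, hπz]
  have hSY : cj (π s) (π y) = π y := hPY s hsP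
  have hSY' : π s * π y = π y * π s := comm_of_cj hSY
  have hne : π s ≠ π y := fun h => hsC (hC_of s h)
  -- the element `h`
  obtain ⟨g, hg⟩ := hcon s hsP hsC
  have hh : cj (π g⁻¹) (π s) = π y := by
    rw [← map_cj]
    have h1 : cj g⁻¹ s = g⁻¹ * s * g := by unfold cj; rw [inv_inv]
    rw [h1]
    apply hCz _ hg
    have h2 : (g⁻¹ * s * g) ^ 2 = g⁻¹ * (s ^ 2) * g := by rw [pow_two, pow_two]; group
    rw [h2, hssz, hcz g⁻¹]
    group
  obtain ⟨h, hhdef⟩ : ∃ h, h = g⁻¹ := ⟨_, rfl⟩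
  rw [← hhdef] at hh
  clear hhdef
  -- the element `f`
  obtain ⟨f, hfS, hfP⟩ : ∃ f : G, cj (π f) (π s) = π y ∧ cj f y ∈ (P : Subgroup G) := by
    let N : Subgroup G := (Subgroup.centralizer {π y}).comap π
    have hN : ∀ n : G, n ∈ N ↔ cj (π n) (π y) = π y := by
      intro n
      rw [Subgroup.mem_comap, Subgroup.mem_centralizer_singleton_iff]
      exact ⟨fun h1 => cj_eq_self h1, fun h1 => comm_of_cj h1⟩
    have h1 : cj h y ∈ N := by
      rw [hN, map_cj]
      have h2 : cj (cj (π h) (π y)) (π y) = cj (π h) (cj (π y) (π s)) := by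
        rw [← hh]
        unfold cj
        group
      have h3 : cj (π y) (π s) = π s := cj_eq_self hSY'.symm
      rw [h2, h3, hh]
    have h2 : (cj h y) ^ 2 ^ 2 = 1 := by
      have h3 : (cj h y) ^ 2 ^ 2 = cj h (y ^ 4) := by
        unfold cj
        rw [conj_pow]
        rfl
      rw [h3, hy4, cj_one]
    obtain ⟨n, hn, hnP⟩ := exists_conj_mem P N (fun p hp => (hN p).mpr (hPY p hp)) _ h1 2 h2
    refine ⟨n * h, ?_, ?_⟩
    · rw [map_mul, cj_mul_left, hh]
      exact (hN n).mp hn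
    · rw [cj_mul_left]
      exact hnP
  -- `y' = f y f⁻¹`
  have hy'z : (cj f y) ^ 2 = z := by
    have h1 : (cj f y) ^ 2 = cj f (y ^ 2) := by unfold cj; rw [conj_pow]
    rw [h1, ← hz]
    exact cj_eq_self (hcz f)
  have hy'C : cj f y ∉ C := by
    intro hmem
    have h1 := hCz _ hmem hy'z
    rw [map_cj] at h1
    exact hne (cj_inj (π f) (hfS.trans h1.symm))
  obtain ⟨Y, hY⟩ : ∃ Y, Y = π y := ⟨_, rfl⟩
  obtain ⟨S, hS⟩ : ∃ S, S = π s := ⟨_, rfl⟩
  obtain ⟨F, hF⟩ : ∃ F, F = π f := ⟨_, rfl⟩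
  rw [← hS] at hSS hSY hSY' hne hfS
  rw [← hY] at hYY hSY hSY' hne hfS
  rw [← hF] at hfS
  have hP2 : IsPGroup 2 C := P.2.to_le hCP
  rcases sq_or_gen C hC hP2 y hyC with ⟨r, hrC, hr⟩ | hgen
  · -- a square root of `y`
    obtain ⟨R, hR⟩ : ∃ R, R = π r := ⟨_, rfl⟩
    have hRR : R * R = Y := by rw [hR, hY, ← map_mul, ← pow_two, hr]
    have hSR : cj S R = R⁻¹ := by
      rw [hS, hR, ← map_cj]
      have h1 : cj s r = r⁻¹ := (hinv s hsP hsC).2 r hrC
      rw [h1, map_inv]
    have hY'R : cj (cj F Y) R = R⁻¹ := by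
      rw [hF, hY, hR, ← map_cj, ← map_cj]
      have h1 : cj (cj f y) r = r⁻¹ := (hinv _ hfP hy'C).2 r hrC
      rw [h1, map_inv]
    -- conjugation by `R`
    have inv_act : ∀ T : Q, cj T R = R⁻¹ → cj R T = Y * T := by
      intro T hT
      have h1 : cj T R⁻¹ = R := by rw [cj_inv, hT, inv_inv]
      calc cj R T = R * (cj T R⁻¹) * T := by unfold cj; group
        _ = R * R * T := by rw [h1]
        _ = Y * T := by rw [hRR]
    have hRY : cj R Y = Y := by
      rw [← hRR, cj_mul, cj_self]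
    have hRS : cj R S = Y * S := inv_act S hSR
    have hRY' : cj R (cj F Y) = Y * cj F Y := inv_act _ hY'R
    have hF1 : cj F⁻¹ Y = S := by rw [← hfS, cj_inv_left]
    -- the element `w`
    have hw : π (r * (f⁻¹ * r * f)) = R * (F⁻¹ * R * F) := by
      rw [map_mul, map_mul, map_mul, map_inv, hR, hF]
    have e1 : ∀ T : Q, cj (R * (F⁻¹ * R * F)) T = cj R (cj F⁻¹ (cj R (cj F T))) := by
      intro T
      rw [cj_mul_left, cj_mul_left, cj_mul_left]
    refine hne (no_cycle π h3 (r * (f⁻¹ * r * f)) (Y := Y) (S := S) (D := Y * S) ?_ ?_ ?_)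
    · rw [hw, e1, hRY', cj_mul, hF1, cj_inv_left, cj_mul, hRS, hRY, mul_assoc, hSY', ← mul_assoc,
        hYY, one_mul]
    · rw [hw, e1, hfS, hRY, hF1, hRS]
    · have e2 : cj F⁻¹ (Y * cj F Y) = S * Y := by rw [cj_mul, hF1, cj_inv_left]
      have e3 : cj (R * (F⁻¹ * R * F)) Y = S := by
        rw [e1, hRY', e2, cj_mul, hRS, hRY, mul_assoc, hSY', ← mul_assoc, hYY, one_mul]
      have e4 : cj (R * (F⁻¹ * R * F)) S = Y * S := by rw [e1, hfS, hRY, hF1, hRS]
      rw [hw, cj_mul, e3, e4]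
      calc S * (Y * S) = S * (S * Y) := by rw [hSY']
        _ = Y := by rw [← mul_assoc, hSS, one_mul]
  · -- `y` generates `C`
    have hindex : (C.subgroupOf (P : Subgroup G)).index = 2 := hidx
    have hmul : ∀ p ∈ (P : Subgroup G), p ∉ C → π p = S ∨ π p = Y * S := by
      intro p hp hpC
      have h1 : (⟨p, hp⟩ * ⟨s, hsP⟩⁻¹ : (P : Subgroup G)) ∈ C.subgroupOf (P : Subgroup G) := by
        rw [Subgroup.mul_mem_iff_of_index_two hindex, inv_mem_iff, Subgroup.mem_subgroupOf,
          Subgroup.mem_subgroupOf]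
        exact ⟨fun h => absurd h hpC, fun h => absurd h hsC⟩
      have h2 : p * s⁻¹ ∈ C := h1
      obtain ⟨n, hn⟩ := hgen _ h2
      have h3' : p = y ^ n * s := by rw [← hn]; group
      have h4 : π p = Y ^ n * S := by rw [h3', map_mul, map_pow, hY, hS]
      rcases Nat.even_or_odd' n with ⟨j, hj | hj⟩
      · left
        rw [h4, hj, pow_mul, pow_two, hYY, one_pow, one_mul]
      · right
        rw [h4, hj, pow_succ, pow_mul, pow_two, hYY, one_pow, one_mul]
    have hmulC : ∀ p ∈ C, π p = 1 ∨ π p = Y := by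
      intro p hpC
      obtain ⟨n, hn⟩ := hgen _ hpC
      have h4 : π p = Y ^ n := by rw [hn, map_pow, hY]
      rcases Nat.even_or_odd' n with ⟨j, hj | hj⟩
      · left
        rw [h4, hj, pow_mul, pow_two, hYY, one_pow]
      · right
        rw [h4, hj, pow_succ, pow_mul, pow_two, hYY, one_pow, one_mul]
    have hzP : z ∈ (P : Subgroup G) := hCP hzC
    have hyP : y ∈ (P : Subgroup G) := hCP hyC
    have hPiff : ∀ p : G, p ∈ (P : Subgroup G) ↔
        (π p = 1 ∨ π p = Y ∨ π p = S ∨ π p = Y * S) := by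
      intro p
      constructor
      · intro hp
        by_cases hpC : p ∈ C
        · rcases hmulC p hpC with h | h
          · exact Or.inl h
          · exact Or.inr (Or.inl h)
        · rcases hmul p hp hpC with h | h
          · exact Or.inr (Or.inr (Or.inl h))
          · exact Or.inr (Or.inr (Or.inr h))
      · have key : ∀ q ∈ (P : Subgroup G), π p = π q → p ∈ (P : Subgroup G) := by
          intro q hq hpq
          rcases hπeq p q hpq with h | h
          · rw [h]; exact hq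
          · rw [h]; exact mul_mem hzP hq
        rintro (h | h | h | h)
        · exact key 1 (one_mem _) (by rw [h, map_one])
        · exact key y hyP (by rw [h, hY])
        · exact key s hsP (by rw [h, hS])
        · exact key (y * s) (mul_mem hyP hsP) (by rw [h, map_mul, hY, hS])
    rcases hmul _ hfP hy'C with h1 | h1
    · -- `f` exchanges `y` and `s`
      rw [map_cj, ← hF, ← hY] at h1
      obtain ⟨k, m, hm, hkm⟩ := Nat.exists_eq_two_pow_mul_odd (orderOf_pos f).ne'
      have hfP : ∀ p : G, p ∈ (P : Subgroup G) ↔ cj f p ∈ (P : Subgroup G) := by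
        intro p
        rw [hPiff, hPiff, map_cj, ← hF]
        have hYS : cj F (Y * S) = Y * S := by rw [cj_mul, h1, hfS, hSY']
        constructor
        · rintro (h | h | h | h)
          · left; rw [h, cj_one]
          · right; right; left; rw [h, h1]
          · right; left; rw [h, hfS]
          · right; right; right; rw [h, hYS]
        · rintro (h | h | h | h)
          · left; exact cj_inj F (by rw [h, cj_one])
          · right; right; left; exact cj_inj F (by rw [h, hfS])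
          · right; left; exact cj_inj F (by rw [h, h1])
          · right; right; right; exact cj_inj F (by rw [h, hYS])
      have h2 := mem_of_normalizes P f hfP m k (by
        rw [← pow_mul, mul_comm, ← hkm, pow_orderOf_eq_one])
      have h3' := hPY _ h2
      rw [map_pow, ← hF, ← hY] at h3'
      obtain ⟨j, hj⟩ := hm
      have h4 : cj (F ^ 2) Y = Y := by rw [pow_two, cj_mul_left, h1, hfS]
      have h5 : cj (F ^ 2) S = S := by rw [pow_two, cj_mul_left, hfS, h1]
      rw [hj, pow_succ, pow_mul, cj_mul_left, h1, cj_pow h5] at h3'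
      exact hne h3'
    · -- `f` permutes `s`, `y`, `y s` cyclically
      rw [map_cj, ← hF, ← hY] at h1
      refine hne (no_cycle π h3 f (Y := S) (S := Y) (D := Y * S) ?_ ?_ ?_).symm
      · rw [← hF]; exact hfS
      · rw [← hF]; exact h1
      · rw [← hF, cj_mul, h1, hfS, mul_assoc, hSY', ← mul_assoc, hYY, one_mul]

end Pool.Agent.Helper78.ZS
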