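import Pool.Agent.Helper82.ZS.Fr

/-!
# Pairs of elements of order three in a fixed point free group
-/

set_option autoImplicit false

namespace Pool.Agent.Helper78.ZS

open Pool.Agent.Helper82.EB Pool.Agent.Helper82.ZS

section rep

variable {G : Type*} [Group G] {V : Type*} [AddCommGroup V] [Module ℂ V]
  {ρ : G →* Module.End ℂ V}

lemma map_apply_mul (a b : G) (v : V) : ρ (a * b) v = ρ a (ρ b v) := by
  rw [map_mul]; rfl

lemma map_apply_one (v : V) : ρ 1 v = v := by
  rw [map_one]; rfl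

lemma eigen_root (hρ : Fpf ρ) (u : G) {v : V} (hv : v ≠ 0) {ζ : ℂ} (h : ρ u v = ζ • v) :
    IsPrimitiveRoot ζ (orderOf u) := by
  have hpow : ∀ n : ℕ, ρ (u ^ n) v = ζ ^ n • v := by
    intro n
    induction n with
    | zero => rw [pow_zero, pow_zero, one_smul, map_apply_one]
    | succ n ih => rw [pow_succ, map_apply_mul, h, map_smul, ih, smul_smul, pow_succ']
  refine ⟨?_, ?_⟩
  · have h1 := hpow (orderOf u)
    rw [pow_orderOf_eq_one, map_apply_one] at h1
    have h2 : (ζ ^ orderOf u) • v = (1 : ℂ) • v := by rw [← h1, one_smul]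
    exact smul_left_injective ℂ hv h2
  · intro l hl
    apply orderOf_dvd_of_pow_eq_one
    by_contra hne
    apply hv
    apply hρ _ hne v
    rw [hpow, hl, one_smul]

lemma eigen_inv (u : G) {v : V} {ζ : ℂ} (hζ : ζ ≠ 0) (h : ρ u v = ζ • v) :
    ρ u⁻¹ v = ζ⁻¹ • v := by
  have h1 : ρ u⁻¹ (ρ u v) = v := by
    rw [← map_apply_mul, inv_mul_cancel, map_apply_one]
  rw [h, map_smul] at h1
  rw [← h1, smul_smul, inv_mul_cancel₀ hζ, one_smul]
  rw [h1]

/-- elements of order three -/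
lemma order_three (hρ : Fpf ρ) {x : G} (hx : x ^ 3 = 1) (hx1 : x ≠ 1) :
    ρ x * ρ x + ρ x + 1 = 0 := by
  ext v
  apply hρ x hx1
  have h1 : ρ x (ρ x (ρ x v)) = v := by
    rw [← map_apply_mul, ← map_apply_mul, ← pow_two, ← pow_succ, hx, map_apply_one]
  change ρ x (ρ x (ρ x v) + ρ x v + v) = ρ x (ρ x v) + ρ x v + v
  rw [map_add, map_add, h1]
  abel

lemma inv_three (hρ : Fpf ρ) {x : G} (hx : x ^ 3 = 1) (hx1 : x ≠ 1) :
    ρ x⁻¹ = -1 - ρ x := by
  have h1 : x⁻¹ = x * x := by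
    apply inv_eq_of_mul_eq_one_left
    rw [← pow_two, ← pow_succ, hx]
  have h2 := order_three hρ hx hx1
  rw [h1, map_mul]
  calc ρ x * ρ x = (ρ x * ρ x + ρ x + 1) - 1 - ρ x := by abel
    _ = -1 - ρ x := by rw [h2]; abel

/-- involutions -/
lemma invol (hρ : Fpf ρ) {g : G} (hg : g ^ 2 = 1) (hg1 : g ≠ 1) : ρ g = -1 := by
  ext v
  have h1 : ρ g (ρ g v) = v := by
    rw [← map_apply_mul, ← pow_two, hg, map_apply_one]
  have h2 : ρ g v + v = 0 := by
    apply hρ g hg1
    rw [map_add, h1]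
    abel
  change ρ g v = -v
  exact eq_neg_of_add_eq_zero_left h2

/-- the sum of the four elements -/
lemma sum_four (hρ : Fpf ρ) {x y : G} (hx : x ^ 3 = 1) (hx1 : x ≠ 1) (hy : y ^ 3 = 1)
    (hy1 : y ≠ 1) : ρ (x * y) + ρ (x * y)⁻¹ + ρ (x * y⁻¹) + ρ (x * y⁻¹)⁻¹ = 1 := by
  rw [mul_inv_rev, mul_inv_rev, inv_inv, map_mul, map_mul, map_mul, map_mul,
    inv_three hρ hx hx1, inv_three hρ hy hy1]
  noncomm_ring

/-- `ρ g + 1` is injective unless `g` is an involution -/
lemma add_one_inj (hρ : Fpf ρ) {g : G} (hg : g ^ 2 ≠ 1) {A : Module.End ℂ V}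
    (h : (ρ g + 1) * A = 0) : A = 0 := by
  ext v
  have h1 : ρ g (A v) + A v = 0 := LinearMap.congr_fun h v
  apply hρ (g ^ 2) hg
  have h2 : ρ g (A v) = -(A v) := eq_neg_of_add_eq_zero_left h1
  rw [pow_two, map_apply_mul]
  change ρ g (ρ g (A v)) = A v
  rw [h2, map_neg, h2, neg_neg]

end rep

theorem s_F0 (hNT : S_NT) : S_F0 := by
  intro G _ _ V _ _ _ _ ρ hρ x y hx hx1 hy hy1 hyx hyx'
  obtain ⟨u, hu⟩ : ∃ u, u = x * y := ⟨_, rfl⟩
  obtain ⟨w, hw⟩ : ∃ w, w = x * y⁻¹ := ⟨_, rfl⟩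
  have hsum := sum_four hρ hx hx1 hy hy1
  rw [← hu, ← hw] at hsum
  have hu1 : u ≠ 1 := by
    intro h
    rw [h] at hu
    exact hyx' (eq_inv_of_mul_eq_one_right hu.symm)
  have hw1 : w ≠ 1 := by
    intro h
    rw [h] at hw
    exact hyx (mul_inv_eq_one.mp hw.symm).symm
  -- an eigenvector of `u`
  obtain ⟨ζ, hζ⟩ := Module.End.exists_eigenvalue (ρ u)
  obtain ⟨v, hv⟩ := hζ.exists_hasEigenvector
  have hv0 : v ≠ 0 := hv.2
  have huv : ρ u v = ζ • v := hv.apply_eq_smul
  have hζr := eigen_root hρ u hv0 huv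
  have hζ0 : ζ ≠ 0 := hζr.ne_zero (orderOf_pos u).ne'
  have huv' := eigen_inv u hζ0 huv
  -- an eigenvector of `w`
  obtain ⟨η, hηr, hη⟩ : ∃ η : ℂ, IsPrimitiveRoot η (orderOf w) ∧ ζ + ζ⁻¹ + η + η⁻¹ = 1 := by
    obtain ⟨c, hc⟩ : ∃ c : ℂ, c = 1 - ζ - ζ⁻¹ := ⟨_, rfl⟩
    have hwv : ρ w v + ρ w⁻¹ v = c • v := by
      have h1 : ρ u v + ρ u⁻¹ v + ρ w v + ρ w⁻¹ v = v := LinearMap.congr_fun hsum v
      rw [huv, huv'] at h1
      rw [hc, sub_smul, sub_smul, one_smul]
      nth_rewrite 3 [← h1]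
      abel
    have hwv2 : ρ w (ρ w v) = c • ρ w v - v := by
      have h1 := congrArg (ρ w) hwv
      rw [map_add, map_smul, ← map_apply_mul w w⁻¹, mul_inv_cancel, map_apply_one] at h1
      rw [← h1]
      abel
    obtain ⟨η, hη⟩ : ∃ η : ℂ, η * η = c * η - 1 := by
      obtain ⟨d, hd⟩ := IsAlgClosed.exists_pow_nat_eq (c ^ 2 / 4 - 1) (n := 2) (by norm_num)
      refine ⟨c / 2 + d, ?_⟩
      linear_combination hd
    have hη0 : η ≠ 0 := by
      rintro rfl
      norm_num at hη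
    have hηc : η + η⁻¹ = c := by
      field_simp
      linear_combination hη
    by_cases h1 : ρ w v = η⁻¹ • v
    · have h2 := eigen_root hρ w hv0 h1
      refine ⟨η⁻¹, h2, ?_⟩
      rw [inv_inv]
      linear_combination hηc + hc
    · have h2 : ρ w v - η⁻¹ • v ≠ 0 := sub_ne_zero.mpr h1
      have h3 : ρ w (ρ w v - η⁻¹ • v) = η • (ρ w v - η⁻¹ • v) := by
        rw [map_sub, map_smul, hwv2, smul_sub, smul_smul, mul_inv_cancel₀ hη0, one_smul, ← hηc,
          add_smul]
        abel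
      refine ⟨η, eigen_root hρ w h2 h3, ?_⟩
      linear_combination hηc + hc
  obtain ⟨U, hU⟩ : ∃ U, U = ρ u := ⟨_, rfl⟩
  obtain ⟨U', hU'⟩ : ∃ U', U' = ρ u⁻¹ := ⟨_, rfl⟩
  have hUU' : U * U' = 1 := by rw [hU, hU', ← map_mul, mul_inv_cancel, map_one]
  have hU'U : U' * U = 1 := by rw [hU, hU', ← map_mul, inv_mul_cancel, map_one]
  have he : e ρ x y = 2 * (U + U') - 1 := by rw [e, ← hu, hU, hU']
  rw [he]
  have hne : ∀ n : ℕ, 0 < n → n < orderOf u → u ^ n ≠ 1 := by
    intro n hn hlt h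
    exact absurd (Nat.le_of_dvd hn (orderOf_dvd_of_pow_eq_one h)) (not_le.mpr hlt)
  rcases hNT (orderOf u) (orderOf w) ζ η (orderOf_pos u) (orderOf_pos w) hζr hηr hη with
    h | h | h | h | h
  · exact absurd (orderOf_eq_one_iff.mp h) hu1
  · exfalso
    rw [h] at hζr
    have h1 : ζ ^ 2 + ζ + 1 = 0 := by
      have h2 : ζ ^ 3 = 1 := hζr.pow_eq_one
      have h3 : ζ ≠ 1 := hζr.ne_one (by norm_num)
      have h4 : (ζ - 1) * (ζ ^ 2 + ζ + 1) = 0 := by linear_combination h2
      rcases mul_eq_zero.mp h4 with h5 | h5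
      · exact absurd (sub_eq_zero.mp h5) h3
      · exact h5
    have hη0 : η ≠ 0 := hηr.ne_zero (orderOf_pos w).ne'
    have h2 : ζ + ζ⁻¹ = -1 := by
      field_simp
      linear_combination h1
    have h3 : η + η⁻¹ = 2 := by linear_combination hη - h2
    have h4 : (η - 1) ^ 2 = 0 := by
      have h5 : η * (η + η⁻¹) = η * 2 := by rw [h3]
      rw [mul_add, mul_inv_cancel₀ hη0] at h5
      linear_combination h5
    have h5 : η = 1 := by
      have h6 := pow_eq_zero_iff (two_ne_zero) |>.mp h4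
      exact sub_eq_zero.mp h6
    rw [h5] at hηr
    have h6 := hηr.dvd_of_pow_eq_one 1 (by norm_num)
    have h7 : orderOf w = 1 := Nat.dvd_one.mp h6
    exact hw1 (orderOf_eq_one_iff.mp h7)
  · -- order four
    right; left
    have h1 : ρ (u ^ 2) = -1 := by
      apply invol hρ
      · have h0 := pow_orderOf_eq_one u
        rw [h] at h0
        rw [← pow_mul]
        exact h0
      · exact hne 2 (by norm_num) (by omega)
    rw [map_pow, ← hU, pow_two] at h1
    have h2 : U' = -U := by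
      calc U' = -(U' * (-1)) := by noncomm_ring
        _ = -(U' * (U * U)) := by rw [h1]
        _ = -((U' * U) * U) := by rw [mul_assoc]
        _ = -U := by rw [hU'U, one_mul]
    rw [h2]
    noncomm_ring
  · -- order six
    left
    have h1 : ρ (u ^ 3) = -1 := by
      apply invol hρ
      · have h0 := pow_orderOf_eq_one u
        rw [h] at h0
        rw [← pow_mul]
        exact h0
      · exact hne 3 (by norm_num) (by omega)
    rw [map_pow, ← hU] at h1
    have h2 : U ^ 2 - U + 1 = 0 := by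
      apply add_one_inj hρ (hne 2 (by norm_num) (by omega))
      rw [← hU]
      calc (U + 1) * (U ^ 2 - U + 1) = U ^ 3 + 1 := by noncomm_ring
        _ = 0 := by rw [h1]; abel
    have h3 : U + U' = 1 := by
      have h4 : U' * (U ^ 2 - U + 1) = 0 := by rw [h2, mul_zero]
      have h5 : U' * (U ^ 2 - U + 1) = (U' * U) * U - U' * U + U' := by noncomm_ring
      rw [h5, hU'U, one_mul] at h4
      calc U + U' = (U - 1 + U') + 1 := by abel
        _ = 1 := by rw [h4, zero_add]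
    rw [h3]
    noncomm_ring
  · -- order ten
    right; right
    have h1 : ρ (u ^ 5) = -1 := by
      apply invol hρ
      · have h0 := pow_orderOf_eq_one u
        rw [h] at h0
        rw [← pow_mul]
        exact h0
      · exact hne 5 (by norm_num) (by omega)
    rw [map_pow, ← hU] at h1
    have h2 : U ^ 4 - U ^ 3 + U ^ 2 - U + 1 = 0 := by
      apply add_one_inj hρ (hne 2 (by norm_num) (by omega))
      rw [← hU]
      calc (U + 1) * (U ^ 4 - U ^ 3 + U ^ 2 - U + 1) = U ^ 5 + 1 := by noncomm_ring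
        _ = 0 := by rw [h1]; abel
    have h3 : U * U - U + 1 - U' + U' * U' = 0 := by
      have h4 : U' * U' * (U ^ 4 - U ^ 3 + U ^ 2 - U + 1) = 0 := by rw [h2, mul_zero]
      have h5 : U' * U' * (U ^ 4 - U ^ 3 + U ^ 2 - U + 1)
          = U' * (U' * U) * U * U * U - U' * (U' * U) * U * U + U' * (U' * U) * U
            - U' * (U' * U) + U' * U' := by noncomm_ring
      rw [h5, hU'U, mul_one, hU'U, one_mul] at h4
      exact h4
    have h4 : (U + U') * (U + U') = (U + U') + 1 := by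
      calc (U + U') * (U + U') = U * U + U * U' + U' * U + U' * U' := by noncomm_ring
        _ = (U * U - U + 1 - U' + U' * U') + (U + U') + 1 := by
          rw [hUU', hU'U]; noncomm_ring
        _ = (U + U') + 1 := by rw [h3, zero_add]
    have h5 : (2 * (U + U') - 1) ^ 2 = 4 * ((U + U') * (U + U')) - 4 * (U + U') + 1 := by
      noncomm_ring
    rw [h5, h4, mul_add, mul_one]
    have h6 : 4 * (U + U') + 4 - 4 * (U + U') + 1 = (4 : Module.End ℂ V) + 1 := by abel
    rw [h6]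
    norm_num

end Pool.Agent.Helper78.ZS
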