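import Pool.Agent.Helper82.ZS.Fr2

/-!
# Complementary elements of order three are not adjacent
-/

set_option autoImplicit false

namespace Pool.Agent.Helper78.ZS

open Pool.Agent.Helper82.ZS

/-- the trace of an endomorphism of square five -/
lemma trace_five {V : Type*} [AddCommGroup V] [Module ℂ V] [FiniteDimensional ℂ V]
    (E : Module.End ℂ V) (h : E * E = 5) :
    ∃ m : ℤ, LinearMap.trace ℂ V E = ((Real.sqrt 5 : ℝ) : ℂ) * m := by
  obtain ⟨s, hs⟩ : ∃ s : ℂ, s = ((Real.sqrt 5 : ℝ) : ℂ) := ⟨_, rfl⟩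
  have hss : s * s = 5 := by
    rw [hs, ← Complex.ofReal_mul, Real.mul_self_sqrt (by norm_num)]
    norm_num
  have hs0 : s ≠ 0 := by
    rintro h0
    rw [h0] at hss
    norm_num at hss
  have h5 : (5 : Module.End ℂ V) = (5 : ℂ) • 1 := by
    rw [← Algebra.algebraMap_eq_smul_one, map_ofNat]
  have hid : IsIdempotentElem ((1 / 2 : ℂ) • (1 + s⁻¹ • E)) := by
    have h1 : (1 + s⁻¹ • E) * (1 + s⁻¹ • E) = (2 : ℂ) • (1 + s⁻¹ • E) := by
      have h2 : (s⁻¹ • E) * (s⁻¹ • E) = 1 := by
        rw [smul_mul_smul_comm, h, h5, smul_smul, ← hss]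
        have h3 : s⁻¹ * s⁻¹ * (s * s) = 1 := by field_simp
        rw [h3, one_smul]
      calc (1 + s⁻¹ • E) * (1 + s⁻¹ • E)
          = 1 + s⁻¹ • E + (s⁻¹ • E + (s⁻¹ • E) * (s⁻¹ • E)) := by
            rw [mul_add, mul_one, add_mul, one_mul]
        _ = (2 : ℂ) • (1 + s⁻¹ • E) := by
            rw [h2, two_smul]
            abel
    rw [IsIdempotentElem, smul_mul_smul_comm, h1, smul_smul]
    norm_num
  obtain ⟨p, hp⟩ := (LinearMap.isProj_iff_isIdempotentElem _).mpr hid
  have h2 := hp.trace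
  rw [map_smul, map_add, map_smul, LinearMap.trace_one, smul_eq_mul, smul_eq_mul] at h2
  refine ⟨2 * (Module.finrank ℂ p : ℤ) - Module.finrank ℂ V, ?_⟩
  rw [← hs]
  push_cast
  have h3 : LinearMap.trace ℂ V E = s * (s⁻¹ * LinearMap.trace ℂ V E) := by
    rw [← mul_assoc, mul_inv_cancel₀ hs0, one_mul]
  rw [h3]
  linear_combination (2 * s) * h2

section ring

variable {R : Type*} [Ring R]

lemma gam_neg (q c : R) : gam (-q) c = -gam q c := by
  simp only [gam]
  noncomm_ring

lemma inv_sum (h2 : ∀ x : R, 2 * x = 0 → x = 0) {i j c : R} (hi : i * i = -1)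
    (hj : j * j = -1) (hji : j * i = -(i * j))
    (hs : gam i c + gam j c + gam (i * j) c = 1 ∨ gam i c + gam j c + gam (i * j) c = -1) :
    i * c * i + j * c * j + (i * j) * c * (i * j) = c + 2 := by
  have h1 := sum_key hi hj hji c
  have h3 : i * (gam i c + gam j c + gam (i * j) c) - (gam i c + gam j c + gam (i * j) c) * i
      = 0 := by
    rcases hs with hs | hs <;> rw [hs] <;> noncomm_ring
  rw [h3] at h1
  have h4 : (i * j - j) * (i * j - j) = -2 := by
    have e1 : (i * j) * (i * j) = -1 := by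
      calc (i * j) * (i * j) = i * (j * i) * j := by noncomm_ring
        _ = -((i * i) * (j * j)) := by rw [hji]; noncomm_ring
        _ = -1 := by rw [hi, hj]; noncomm_ring
    have e2 : (i * j) * j = -i := by rw [mul_assoc, hj]; noncomm_ring
    have e3 : j * (i * j) = i := by
      calc j * (i * j) = (j * i) * j := by rw [mul_assoc]
        _ = -(i * (j * j)) := by rw [hji]; noncomm_ring
        _ = i := by rw [hj]; noncomm_ring
    calc (i * j - j) * (i * j - j)
        = (i * j) * (i * j) - (i * j) * j - j * (i * j) + j * j := by noncomm_ring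
      _ = -1 - -i - i + -1 := by rw [e1, e2, e3, hj]
      _ = -(1 + 1) := by abel
      _ = -2 := by norm_num
  have h5 : 2 * (c + 2 - (i * c * i + j * c * j + (i * j) * c * (i * j))) = 0 := by
    have h6 : (i * j - j) * ((i * j - j)
        * (c + 2 - (i * c * i + j * c * j + (i * j) * c * (i * j)))) = 0 := by
      rw [h1, mul_zero]
    rw [← mul_assoc, h4, neg_mul, neg_eq_zero] at h6
    exact h6
  exact (sub_eq_zero.mp (h2 _ h5)).symm

lemma inv_ev (h2 : ∀ x : R, 2 * x = 0 → x = 0) {i j c : R} (hi : i * i = -1)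
    (hj : j * j = -1) (hji : j * i = -(i * j)) (n : Fin 4)
    (hn : ev i j c n = 1 ∨ ev i j c n = -1) :
    i * c * i + j * c * j + (i * j) * c * (i * j) = c + 2 := by
  have hsw : ∀ x y : R, x = -y → (x = 1 ∨ x = -1) → (y = 1 ∨ y = -1) := by
    rintro x y rfl (h | h)
    · right; rw [← h, neg_neg]
    · left; exact neg_injective h
  fin_cases n
  · have h1 : ev i j c 0 = -(gam i c + gam j c + gam (i * j) c) := rfl
    exact inv_sum h2 hi hj hji (hsw _ _ h1 hn)
  · have h1 : ev i j c 1 = -(gam (-i) c + gam j c + gam (-i * j) c) := by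
      rw [neg_mul, gam_neg, gam_neg]
      change gam i c - gam j c + gam (i * j) c = _
      abel
    have h3 := inv_sum h2 (i := -i) (j := j) (c := c) (by rw [neg_mul_neg, hi]) hj
      (by rw [mul_neg, hji, neg_mul]) (hsw _ _ h1 hn)
    rw [← h3]
    simp only [neg_mul, mul_neg, neg_neg]
  · have h1 : ev i j c 2 = -(gam i c + gam (-j) c + gam (i * -j) c) := by
      rw [mul_neg, gam_neg, gam_neg]
      change -gam i c + gam j c + gam (i * j) c = _
      abel
    have h3 := inv_sum h2 (i := i) (j := -j) (c := c) hi (by rw [neg_mul_neg, hj])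
      (by rw [neg_mul, hji, mul_neg]) (hsw _ _ h1 hn)
    rw [← h3]
    simp only [neg_mul, mul_neg, neg_neg]
  · have h1 : ev i j c 3 = -(gam (-i) c + gam (-j) c + gam (-i * -j) c) := by
      rw [neg_mul_neg, gam_neg, gam_neg]
      change gam i c + gam j c - gam (i * j) c = _
      abel
    have h3 := inv_sum h2 (i := -i) (j := -j) (c := c) (by rw [neg_mul_neg, hi])
      (by rw [neg_mul_neg, hj]) (by rw [neg_mul_neg, neg_mul_neg, hji]) (hsw _ _ h1 hn)
    rw [← h3]
    simp only [neg_mul, mul_neg, neg_neg]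

end ring

section trace

variable {V : Type*} [AddCommGroup V] [Module ℂ V]

/-- the trace of `γ_q(c) γ_q(d)` -/
lemma trace_gam {q : Module.End ℂ V} (hq : q * q = -1) (c d : Module.End ℂ V) :
    4 * LinearMap.trace ℂ V (gam q c * gam q d)
      = 2 * LinearMap.trace ℂ V ((q * (2 * c + 1) * q) * (2 * d + 1))
        - 2 * LinearMap.trace ℂ V ((2 * c + 1) * (2 * d + 1)) := by
  obtain ⟨C, hC⟩ : ∃ C, C = 2 * c + 1 := ⟨_, rfl⟩
  obtain ⟨D, hD⟩ : ∃ D, D = 2 * d + 1 := ⟨_, rfl⟩
  have e1 : 2 * gam q c = q * C + C * q := by rw [hC]; simp only [gam]; noncomm_ring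
  have e2 : 2 * gam q d = q * D + D * q := by rw [hD]; simp only [gam]; noncomm_ring
  have e3 : (4 : Module.End ℂ V) * (gam q c * gam q d)
      = (q * C * (q * D) + C * q * (D * q)) + (q * C * (D * q) + C * q * (q * D)) := by
    calc (4 : Module.End ℂ V) * (gam q c * gam q d) = (2 * gam q c) * (2 * gam q d) := by
          noncomm_ring
      _ = _ := by rw [e1, e2]; noncomm_ring
  have e4 : 4 * LinearMap.trace ℂ V (gam q c * gam q d)
      = LinearMap.trace ℂ V ((4 : Module.End ℂ V) * (gam q c * gam q d)) := by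
    have e5 : (4 : Module.End ℂ V) * (gam q c * gam q d) = (4 : ℂ) • (gam q c * gam q d) := by
      have e6 : (4 : Module.End ℂ V) = (4 : ℂ) • 1 := by
        rw [← Algebra.algebraMap_eq_smul_one, map_ofNat]
      rw [e6, smul_mul_assoc, one_mul]
    rw [e5, map_smul, smul_eq_mul]
  have h1 : LinearMap.trace ℂ V (C * q * (D * q)) = LinearMap.trace ℂ V (q * C * (q * D)) := by
    have e5 : C * q * (D * q) = (C * q * D) * q := by noncomm_ring
    have e6 : q * (C * q * D) = q * C * (q * D) := by noncomm_ring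
    rw [e5, LinearMap.trace_mul_comm, e6]
  have h2 : LinearMap.trace ℂ V (q * C * (D * q)) = -LinearMap.trace ℂ V (C * D) := by
    have e5 : q * C * (D * q) = (q * C * D) * q := by noncomm_ring
    have e6 : q * (q * C * D) = (q * q) * (C * D) := by noncomm_ring
    rw [e5, LinearMap.trace_mul_comm, e6, hq, neg_one_mul, map_neg]
  have h3 : LinearMap.trace ℂ V (C * q * (q * D)) = -LinearMap.trace ℂ V (C * D) := by
    have e5 : C * q * (q * D) = C * (q * q) * D := by noncomm_ring
    have e6 : C * (-1) * D = -(C * D) := by noncomm_ring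
    rw [e5, hq, e6, map_neg]
  have h4 : q * C * q * D = q * C * (q * D) := by noncomm_ring
  rw [e4, e3, map_add, map_add, map_add, h1, h2, h3, ← hC, ← hD, h4]
  ring

end trace

theorem s_L3 : S_L3 := by
  intro V _ _ _ _ i j c d hi hj hji hc hd hev hn
  have h2 : ∀ x : Module.End ℂ V, 2 * x = 0 → x = 0 := by
    intro x hx
    have e6 : (2 : Module.End ℂ V) = (2 : ℂ) • 1 := by
      rw [← Algebra.algebraMap_eq_smul_one, map_ofNat]
    rw [e6, smul_mul_assoc, one_mul] at hx
    rcases smul_eq_zero.mp hx with h | h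
    · norm_num at h
    · exact h
  obtain ⟨n, hn⟩ := hn
  have hinv := inv_ev h2 hi hj hji n hn
  have hk : (i * j) * (i * j) = -1 := by
    calc (i * j) * (i * j) = i * (j * i) * j := by noncomm_ring
      _ = -((i * i) * (j * j)) := by rw [hji]; noncomm_ring
      _ = -1 := by rw [hi, hj]; noncomm_ring
  have hCC : i * (2 * c + 1) * i + j * (2 * c + 1) * j + (i * j) * (2 * c + 1) * (i * j)
      = 2 * c + 1 := by
    calc i * (2 * c + 1) * i + j * (2 * c + 1) * j + (i * j) * (2 * c + 1) * (i * j)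
        = 2 * (i * c * i + j * c * j + (i * j) * c * (i * j))
          + (i * i + j * j + (i * j) * (i * j)) := by noncomm_ring
      _ = 2 * (c + 2) + (-1 + -1 + -1) := by rw [hinv, hi, hj, hk]
      _ = 2 * c + ((2 * 2 : Module.End ℂ V) + (-1 + -1 + -1)) := by rw [mul_add]; abel
      _ = 2 * c + 1 := by norm_num
  obtain ⟨T, hT⟩ : ∃ T : Module.End ℂ V → ℂ, T = fun A => LinearMap.trace ℂ V A := ⟨_, rfl⟩
  have hTadd : ∀ A B, T (A + B) = T A + T B := fun A B => by rw [hT]; exact map_add _ A B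
  have hTsub : ∀ A B, T (A - B) = T A - T B := fun A B => by rw [hT]; exact map_sub _ A B
  have hTneg : ∀ A, T (-A) = - T A := fun A => by rw [hT]; exact map_neg _ A
  have hTcomm : ∀ A B, T (A * B) = T (B * A) := fun A B => by
    rw [hT]; exact LinearMap.trace_mul_comm ℂ A B
  have g1 := trace_gam hi c d
  have g2 := trace_gam hj c d
  have g3 := trace_gam hk c d
  have hsum : LinearMap.trace ℂ V ((i * (2 * c + 1) * i) * (2 * d + 1))
      + LinearMap.trace ℂ V ((j * (2 * c + 1) * j) * (2 * d + 1))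
      + LinearMap.trace ℂ V (((i * j) * (2 * c + 1) * (i * j)) * (2 * d + 1))
      = LinearMap.trace ℂ V ((2 * c + 1) * (2 * d + 1)) := by
    rw [← map_add, ← map_add, ← add_mul, ← add_mul, hCC]
  have hev4 : T (ev i j c 0 * ev i j d 0) + T (ev i j c 1 * ev i j d 1)
      + T (ev i j c 2 * ev i j d 2) + T (ev i j c 3 * ev i j d 3)
      = 4 * (T (gam i c * gam i d) + T (gam j c * gam j d) + T (gam (i * j) c * gam (i * j) d))
      := by
    have e0 : ev i j c 0 * ev i j d 0 = (gam i c + gam j c + gam (i * j) c)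
        * (gam i d + gam j d + gam (i * j) d) := by
      change -(_ + _ + _) * -(_ + _ + _) = _
      rw [neg_mul_neg]
    have e1 : ev i j c 1 * ev i j d 1 = (gam i c - gam j c + gam (i * j) c)
        * (gam i d - gam j d + gam (i * j) d) := rfl
    have e2 : ev i j c 2 * ev i j d 2 = (-gam i c + gam j c + gam (i * j) c)
        * (-gam i d + gam j d + gam (i * j) d) := rfl
    have e3 : ev i j c 3 * ev i j d 3 = (gam i c + gam j c - gam (i * j) c)
        * (gam i d + gam j d - gam (i * j) d) := rfl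
    rw [e0, e1, e2, e3]
    simp only [mul_add, add_mul, sub_mul, mul_sub, neg_mul, mul_neg, hTadd, hTsub, hTneg]
    ring
  have hterm : ∀ m : Fin 4, ∃ l : ℤ, T (ev i j c m * ev i j d m)
      = ((Real.sqrt 5 : ℝ) : ℂ) * l := by
    intro m
    rcases hev m with ⟨h | h, h5⟩ | ⟨h5, h | h⟩
    · rw [h, one_mul, hT]
      exact trace_five _ h5
    · obtain ⟨l, hl⟩ := trace_five _ h5
      refine ⟨-l, ?_⟩
      rw [h, neg_one_mul, hTneg, hT]
      change -(LinearMap.trace ℂ V) (ev i j d m) = _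
      rw [hl]
      push_cast
      ring
    · rw [h, mul_one, hT]
      exact trace_five _ h5
    · obtain ⟨l, hl⟩ := trace_five _ h5
      refine ⟨-l, ?_⟩
      rw [h, mul_neg_one, hTneg, hT]
      change -(LinearMap.trace ℂ V) (ev i j c m) = _
      rw [hl]
      push_cast
      ring
  have hCD : T ((2 * c + 1) * (2 * d + 1)) = T (2 * tr c d - 1) := by
    have e1 : (2 * c + 1) * (2 * d + 1) + (2 * d + 1) * (2 * c + 1)
        = (2 * tr c d - 1) + (2 * tr c d - 1) := by
      simp only [tr]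
      noncomm_ring
    have e2 := congrArg T e1
    rw [hTadd, hTadd, hTcomm (2 * d + 1)] at e2
    linear_combination e2 / 2
  obtain ⟨l0, h0⟩ := hterm 0
  obtain ⟨l1, h1⟩ := hterm 1
  obtain ⟨l2, h2'⟩ := hterm 2
  obtain ⟨l3, h3⟩ := hterm 3
  have hmain : ((Real.sqrt 5 : ℝ) : ℂ) * ((l0 + l1 + l2 + l3 : ℤ) : ℂ)
      = -4 * T (2 * tr c d - 1) := by
    rw [h0, h1, h2', h3] at hev4
    rw [← hCD]
    rw [hT] at hev4 ⊢
    push_cast
    linear_combination hev4 + g1 + g2 + g3 + 2 * hsum
  have hirr : Irrational (Real.sqrt 5) := by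
    have := Nat.Prime.irrational_sqrt (p := 5) (by norm_num)
    simpa using this
  have hdim : 0 < Module.finrank ℂ V := Module.finrank_pos
  have key : ∀ a : ℤ, a ≠ 0 → ((Real.sqrt 5 : ℝ) : ℂ) * ((l0 + l1 + l2 + l3 : ℤ) : ℂ) ≠ a := by
    intro a ha h
    obtain ⟨M, hM⟩ : ∃ M : ℤ, M = l0 + l1 + l2 + l3 := ⟨_, rfl⟩
    rw [← hM] at h
    have h5 : Real.sqrt 5 * (M : ℝ) = (a : ℝ) := by exact_mod_cast h
    have hM0 : (M : ℝ) ≠ 0 := by
      intro h6
      rw [h6, mul_zero] at h5
      exact ha (by exact_mod_cast h5.symm)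
    apply hirr
    refine ⟨(a : ℚ) / M, ?_⟩
    push_cast
    rw [← h5]
    field_simp
  have hT1 : T 1 = (Module.finrank ℂ V : ℂ) := by rw [hT]; exact LinearMap.trace_one ℂ V
  constructor
  · intro h
    rw [h, hT1] at hmain
    apply key (-4 * (Module.finrank ℂ V : ℤ)) (by omega)
    rw [hmain]
    push_cast
    ring
  · intro h
    rw [h, hTneg, hT1] at hmain
    apply key (4 * (Module.finrank ℂ V : ℤ)) (by omega)
    rw [hmain]
    push_cast
    ring

end Pool.Agent.Helper78.ZS
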